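import Mathlib
import Pool.Agent.W778.AG.Stmts

/-! Task AG-3: the generating function of the Gegenbauer polynomials and the expansion of the
Poisson kernel. -/

set_option autoImplicit false

open MeasureTheory Metric Set Filter Topology

namespace Pool.Agent.W376.AG

open Pool.Agent.W778.AG

/-- coefficients of the generating function -/
noncomputable def cf (m : ℕ) (t : ℝ) (k : ℕ) : ℝ := (Nat.choose (m + k) k : ℝ) * Pg (m + 3) k t

theorem choose_id (m k : ℕ) :
    ((k : ℝ) + 1) * (Nat.choose (m + (k + 1)) (k + 1) : ℝ) =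
      ((m : ℝ) + k + 1) * (Nat.choose (m + k) k : ℝ) := by
  have h := Nat.add_one_mul_choose_eq (m + k) k
  have h2 : ((m + k + 1 : ℕ) : ℝ) * (Nat.choose (m + k) k : ℝ) =
      (Nat.choose (m + k + 1) (k + 1) : ℝ) * ((k + 1 : ℕ) : ℝ) := by exact_mod_cast h
  push_cast at h2
  rw [← add_assoc m k 1]
  linarith

theorem cf_zero (m : ℕ) (t : ℝ) : cf m t 0 = 1 := by
  simp [cf, Pg]

theorem cf_one (m : ℕ) (t : ℝ) : cf m t 1 = (m + 1) * t := by
  simp [cf, Pg]

theorem cf_rec (m : ℕ) (t : ℝ) (k : ℕ) :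
    ((k : ℝ) + 2) * cf m t (k + 2) =
      (2 * (k : ℝ) + m + 3) * t * cf m t (k + 1) - ((k : ℝ) + m + 1) * cf m t k := by
  have h1 := choose_id m (k + 1)
  have h2 := choose_id m k
  push_cast at h1
  have hk : (0 : ℝ) < (k : ℝ) + m + 2 := by positivity
  have hP : Pg (m + 3) (k + 2) t = ((2 * (k : ℝ) + m + 3) * t * Pg (m + 3) (k + 1) t -
      ((k : ℝ) + 1) * Pg (m + 3) k t) / ((k : ℝ) + m + 2) := by
    rw [Pg]
    push_cast
    congr 1 <;> ring
  have h3 : ((k : ℝ) + m + 2) * Pg (m + 3) (k + 2) t = (2 * (k : ℝ) + m + 3) * t *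
      Pg (m + 3) (k + 1) t - ((k : ℝ) + 1) * Pg (m + 3) k t := by
    rw [hP]
    field_simp
  unfold cf
  have e1 : ((k : ℝ) + 2) * ((Nat.choose (m + (k + 2)) (k + 2) : ℝ) * Pg (m + 3) (k + 2) t) =
      (Nat.choose (m + (k + 1)) (k + 1) : ℝ) * (((k : ℝ) + m + 2) * Pg (m + 3) (k + 2) t) := by
    have : ((k : ℝ) + 2) * (Nat.choose (m + (k + 2)) (k + 2) : ℝ) =
        ((k : ℝ) + m + 2) * (Nat.choose (m + (k + 1)) (k + 1) : ℝ) := by
      have e : m + (k + 1 + 1) = m + (k + 2) := by ring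
      rw [e] at h1
      linarith
    calc _ = (((k : ℝ) + 2) * (Nat.choose (m + (k + 2)) (k + 2) : ℝ)) * Pg (m + 3) (k + 2) t := by
          ring
      _ = _ := by rw [this]; ring
  rw [e1, h3]
  have e2 : (Nat.choose (m + (k + 1)) (k + 1) : ℝ) * (((k : ℝ) + 1) * Pg (m + 3) k t) =
      ((k : ℝ) + m + 1) * ((Nat.choose (m + k) k : ℝ) * Pg (m + 3) k t) := by
    calc _ = (((k : ℝ) + 1) * (Nat.choose (m + (k + 1)) (k + 1) : ℝ)) * Pg (m + 3) k t := by ring
      _ = _ := by rw [h2]; ring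
  rw [mul_sub, e2]
  ring

theorem sin_int_pos (m : ℕ) : 0 < ∫ φ in (0 : ℝ)..Real.pi, Real.sin φ ^ m :=
  integral_sin_pow_pos m

theorem wf_nonneg (α φ : ℝ) : 0 ≤ wf α φ := Real.sqrt_nonneg _

theorem wf_le_one (α φ : ℝ) : wf α φ ≤ 1 := by
  unfold wf
  rw [Real.sqrt_le_one]
  have := sq_nonneg (Real.sin α * Real.sin φ)
  linarith

theorem Pg_le (hBD : S_BD) (m k : ℕ) {t : ℝ} (ht : |t| ≤ 1) : |Pg (m + 3) k t| ≤ 1 := by
  obtain ⟨h1, h2⟩ := abs_le.1 ht
  have h3 := hBD (m + 3) k (by omega) (Real.arccos t)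
  rw [Real.cos_arccos h1 h2] at h3
  refine h3.trans ?_
  unfold Pool.Agent.W778.AG.LE
  have hm : m + 3 - 3 = m := by omega
  rw [hm, div_le_one (sin_int_pos m)]
  have hc : Continuous (wf (Real.arccos t)) := by
    unfold wf
    fun_prop
  refine intervalIntegral.integral_mono_on Real.pi_pos.le ?_ ?_ ?_
  · exact ((hc.pow k).mul (Real.continuous_sin.pow m)).intervalIntegrable _ _
  · exact (Real.continuous_sin.pow m).intervalIntegrable _ _
  · intro φ hφ
    have h4 : 0 ≤ Real.sin φ ^ m := pow_nonneg (Real.sin_nonneg_of_mem_Icc hφ) _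
    have h5 : wf (Real.arccos t) φ ^ k ≤ 1 := pow_le_one₀ (wf_nonneg _ _) (wf_le_one _ _)
    nlinarith

theorem cf_le (hBD : S_BD) (m k : ℕ) {t : ℝ} (ht : |t| ≤ 1) :
    |cf m t k| ≤ (Nat.choose (m + k) k : ℝ) := by
  unfold cf
  rw [abs_mul, abs_of_nonneg (by positivity : (0 : ℝ) ≤ (Nat.choose (m + k) k : ℝ))]
  have := Pg_le hBD m k ht
  have h2 : (0 : ℝ) ≤ (Nat.choose (m + k) k : ℝ) := by positivity
  nlinarith

theorem sum_choose (m : ℕ) {ρ : ℝ} (h0 : 0 ≤ ρ) (h1 : ρ < 1) :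
    Summable (fun k : ℕ => (Nat.choose (m + k) k : ℝ) * ρ ^ k) := by
  have h := summable_choose_mul_geometric_of_norm_lt_one (R := ℝ) m
    (r := ρ) (by rw [Real.norm_eq_abs, abs_of_nonneg h0]; exact h1)
  refine h.congr fun k => ?_
  rw [add_comm m k, Nat.choose_symm_add]

theorem sum_choose' (m : ℕ) {ρ : ℝ} (h0 : 0 ≤ ρ) (h1 : ρ < 1) :
    Summable (fun k : ℕ => ((k : ℝ) + 1) * (Nat.choose (m + (k + 1)) (k + 1) : ℝ) * ρ ^ k) := by
  have h := (sum_choose (m + 1) h0 h1).mul_left ((m : ℝ) + 1)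
  refine h.congr fun k => ?_
  rw [choose_id]
  have h2 : ((m : ℝ) + 1) * (Nat.choose (m + 1 + k) k : ℝ) =
      ((m : ℝ) + k + 1) * (Nat.choose (m + k) k : ℝ) := by
    have h3 := Nat.add_one_mul_choose_eq (m + k) m
    have h4 : ((m + k + 1 : ℕ) : ℝ) * (Nat.choose (m + k) m : ℝ) =
        (Nat.choose (m + k + 1) (m + 1) : ℝ) * ((m + 1 : ℕ) : ℝ) := by exact_mod_cast h3
    push_cast at h4
    have e1 : Nat.choose (m + 1 + k) k = Nat.choose (m + k + 1) (m + 1) := by
      have e : m + k + 1 = (m + 1) + k := by ring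
      rw [e, Nat.choose_symm_add]
    have e2 : Nat.choose (m + k) m = Nat.choose (m + k) k := Nat.choose_symm_add
    rw [e1, ← e2]
    linarith
  rw [← mul_assoc, h2]

/-- the generating function -/
noncomputable def SS (m : ℕ) (t r : ℝ) : ℝ := ∑' k : ℕ, cf m t k * r ^ k

/-- its derivative -/
noncomputable def DD (m : ℕ) (t r : ℝ) : ℝ := ∑' k : ℕ, ((k : ℝ) + 1) * cf m t (k + 1) * r ^ k

theorem summS (hBD : S_BD) (m : ℕ) {t r : ℝ} (ht : |t| ≤ 1) (hr : |r| < 1) :
    Summable (fun k : ℕ => cf m t k * r ^ k) := by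
  refine Summable.of_norm_bounded (sum_choose m (abs_nonneg r) hr) fun k => ?_
  rw [norm_mul, norm_pow, Real.norm_eq_abs, Real.norm_eq_abs]
  exact mul_le_mul_of_nonneg_right (cf_le hBD m k ht) (by positivity)

theorem summD (hBD : S_BD) (m : ℕ) {t r : ℝ} (ht : |t| ≤ 1) (hr : |r| < 1) :
    Summable (fun k : ℕ => ((k : ℝ) + 1) * cf m t (k + 1) * r ^ k) := by
  refine Summable.of_norm_bounded (sum_choose' m (abs_nonneg r) hr) fun k => ?_
  rw [norm_mul, norm_mul, norm_pow, Real.norm_eq_abs, Real.norm_eq_abs, Real.norm_eq_abs,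
    abs_of_nonneg (by positivity : (0 : ℝ) ≤ (k : ℝ) + 1)]
  gcongr
  exact cf_le hBD m (k + 1) ht

theorem hasDeriv (hBD : S_BD) (m : ℕ) {t r : ℝ} (ht : |t| ≤ 1) (hr : |r| < 1) :
    HasDerivAt (SS m t) (DD m t r) r := by
  obtain ⟨ρ, h1, h2⟩ := exists_between hr
  have hρ0 : 0 ≤ ρ := (abs_nonneg r).trans h1.le
  have hu : Summable (fun k : ℕ => (k : ℝ) * (Nat.choose (m + k) k : ℝ) * ρ ^ (k - 1)) := by
    rw [← summable_nat_add_iff 1]
    refine (sum_choose' m hρ0 h2).congr fun k => ?_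
    push_cast
    rfl
  have h := hasDerivAt_tsum_of_isPreconnected (𝕜 := ℝ) (t := ball (0 : ℝ) ρ)
    (g := fun (k : ℕ) (x : ℝ) => cf m t k * x ^ k)
    (g' := fun (k : ℕ) (x : ℝ) => cf m t k * ((k : ℝ) * x ^ (k - 1)))
    hu isOpen_ball (convex_ball (0 : ℝ) ρ).isPreconnected ?_ ?_ (y₀ := r) ?_ ?_ (y := r) ?_
  · have e : ∑' k : ℕ, cf m t k * ((k : ℝ) * r ^ (k - 1)) = DD m t r := by
      rw [DD, Summable.tsum_eq_zero_add]
      · simp only [Nat.cast_zero, zero_mul, mul_zero, zero_add]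
        refine tsum_congr fun k => ?_
        push_cast
        ring
      · rw [← summable_nat_add_iff 1]
        refine (summD hBD m ht hr).congr fun k => ?_
        push_cast
        ring
    rw [e] at h
    exact h
  · intro k y _
    exact (hasDerivAt_pow k y).const_mul _
  · intro k y hy
    rw [mem_ball_zero_iff, Real.norm_eq_abs] at hy
    rw [norm_mul, norm_mul, norm_pow, Real.norm_eq_abs, Real.norm_eq_abs, Real.norm_eq_abs,
      abs_of_nonneg (by positivity : (0 : ℝ) ≤ (k : ℝ))]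
    calc |cf m t k| * ((k : ℝ) * |y| ^ (k - 1)) ≤
        (Nat.choose (m + k) k : ℝ) * ((k : ℝ) * ρ ^ (k - 1)) := by
          gcongr
          exact cf_le hBD m k ht
      _ = _ := by ring
  · rw [mem_ball_zero_iff, Real.norm_eq_abs]; exact h1
  · exact summS hBD m ht hr
  · rw [mem_ball_zero_iff, Real.norm_eq_abs]; exact h1

theorem ode (hBD : S_BD) (m : ℕ) {t r : ℝ} (ht : |t| ≤ 1) (hr : |r| < 1) :
    (1 - 2 * r * t + r ^ 2) * DD m t r = ((m : ℝ) + 1) * (t - r) * SS m t r := by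
  have hS := (summS hBD m ht hr).hasSum
  have hD := (summD hBD m ht hr).hasSum
  have hSdef : ∑' k : ℕ, cf m t k * r ^ k = SS m t r := rfl
  have hDdef : ∑' k : ℕ, ((k : ℝ) + 1) * cf m t (k + 1) * r ^ k = DD m t r := rfl
  rw [hSdef] at hS
  rw [hDdef] at hD
  -- `D - b₀`
  have h1 : HasSum (fun k : ℕ => ((k : ℝ) + 2) * cf m t (k + 2) * r ^ (k + 1))
      (DD m t r - (m + 1) * t) := by
    have h := (hasSum_nat_add_iff' 1).2 hD
    simp only [Finset.range_one, Finset.sum_singleton, Nat.cast_zero, zero_add, pow_zero,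
      one_mul, mul_one, cf_one] at h
    refine h.congr_fun ?_ 
    intro k
    push_cast
    ring
  -- `S - c₀`
  have h2 : HasSum (fun k : ℕ => cf m t (k + 1) * r ^ (k + 1)) (SS m t r - 1) := by
    have h := (hasSum_nat_add_iff' 1).2 hS
    simpa [cf_zero] using h
  -- `r D`
  have h3 : HasSum (fun k : ℕ => ((k : ℝ) + 1) * cf m t (k + 1) * r ^ (k + 1)) (r * DD m t r) := by
    refine (hD.mul_left r).congr_fun ?_
    intro k
    ring
  have h3' : HasSum (fun k : ℕ => (k : ℝ) * cf m t k * r ^ k) (r * DD m t r) := by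
    rw [← hasSum_nat_add_iff' 1]
    simp only [Finset.range_one, Finset.sum_singleton, Nat.cast_zero, zero_mul, sub_zero]
    refine h3.congr_fun ?_
    intro k
    push_cast
    ring
  have h4 := ((h3.mul_left (2 * t)).add (h2.mul_left (((m : ℝ) + 1) * t))).sub
    ((h3'.mul_left r).add (hS.mul_left (((m : ℝ) + 1) * r)))
  have h5 : HasSum (fun k : ℕ => ((k : ℝ) + 2) * cf m t (k + 2) * r ^ (k + 1))
      (2 * t * (r * DD m t r) + ((m : ℝ) + 1) * t * (SS m t r - 1) -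
        (r * (r * DD m t r) + ((m : ℝ) + 1) * r * SS m t r)) := by
    refine h4.congr_fun ?_
    intro k
    rw [cf_rec]
    ring
  have h6 := h1.unique h5
  linear_combination h6

theorem q_pos {t r : ℝ} (ht : |t| ≤ 1) (hr : |r| < 1) : 0 < 1 - 2 * r * t + r ^ 2 := by
  have h1 : r * t ≤ |r| := by
    calc r * t ≤ |r * t| := le_abs_self _
      _ = |r| * |t| := abs_mul _ _
      _ ≤ |r| * 1 := mul_le_mul_of_nonneg_left ht (abs_nonneg _)
      _ = |r| := mul_one _
  have h2 : r ^ 2 = |r| ^ 2 := (sq_abs r).symm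
  have h3 : 0 < (1 - |r|) ^ 2 := by
    have : 0 < 1 - |r| := by linarith
    positivity
  nlinarith

theorem SS_eq (hBD : S_BD) (m : ℕ) {t r : ℝ} (ht : |t| ≤ 1) (hr0 : 0 ≤ r) (hr : r < 1) :
    SS m t r * Real.sqrt (1 - 2 * r * t + r ^ 2) ^ (m + 1) = 1 := by
  have habs : ∀ x ∈ Icc (0 : ℝ) r, |x| < 1 := by
    intro x hx
    rw [abs_of_nonneg hx.1]
    exact lt_of_le_of_lt hx.2 hr
  set G : ℝ → ℝ := fun x => SS m t x * Real.sqrt (1 - 2 * x * t + x ^ 2) ^ (m + 1) with hG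
  have hder : ∀ x ∈ Icc (0 : ℝ) r, HasDerivAt G 0 x := by
    intro x hx
    have hx1 := habs x hx
    have hq := q_pos ht hx1
    have hs : 0 < Real.sqrt (1 - 2 * x * t + x ^ 2) := Real.sqrt_pos.2 hq
    have hss : Real.sqrt (1 - 2 * x * t + x ^ 2) * Real.sqrt (1 - 2 * x * t + x ^ 2) =
      1 - 2 * x * t + x ^ 2 := Real.mul_self_sqrt hq.le
    have h1 : HasDerivAt (fun x : ℝ => 1 - 2 * x * t + x ^ 2) (2 * (x - t)) x := by
      have h2 : HasDerivAt (fun x : ℝ => 1 - 2 * x * t + x ^ 2)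
          (0 - 2 * 1 * t + 2 * x ^ (2 - 1) * 1) x :=
        ((hasDerivAt_const x (1 : ℝ)).sub (((hasDerivAt_id x).const_mul 2).mul_const t)).add
          ((hasDerivAt_id x).pow 2)
      convert h2 using 1
      ring
    have h2 := h1.sqrt hq.ne'
    have h3 := (hasDeriv hBD m ht hx1).mul (h2.pow (m + 1))
    have hode := ode hBD m ht hx1
    set s := Real.sqrt (1 - 2 * x * t + x ^ 2) with hsdef
    rw [← hss] at hode
    have hval : DD m t x * s ^ (m + 1) + SS m t x *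
        (((m + 1 : ℕ) : ℝ) * s ^ (m + 1 - 1) * (2 * (x - t) / (2 * s))) = 0 := by
      have e : DD m t x * s ^ (m + 1) + SS m t x *
          (((m + 1 : ℕ) : ℝ) * s ^ (m + 1 - 1) * (2 * (x - t) / (2 * s))) =
          (s ^ m / s) * (s * s * DD m t x + SS m t x * ((↑m + 1) * (x - t))) := by
        rw [Nat.add_sub_cancel]
        push_cast
        field_simp
        ring
      rw [e, hode]
      ring
    have h4 : HasDerivAt G (DD m t x * s ^ (m + 1) + SS m t x *
        (((m + 1 : ℕ) : ℝ) * s ^ (m + 1 - 1) * (2 * (x - t) / (2 * s)))) x := h3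
    rwa [hval] at h4
  have hcon := constant_of_has_deriv_right_zero (f := G) (a := 0) (b := r)
    (fun x hx => (hder x hx).continuousAt.continuousWithinAt)
    (fun x hx => (hder x ⟨hx.1, hx.2.le⟩).hasDerivWithinAt)
  have h1 := hcon r ⟨hr0, le_rfl⟩
  have h0 : G 0 = 1 := by
    rw [hG]
    have : SS m t 0 = 1 := by
      unfold SS
      rw [tsum_eq_single 0]
      · simp [cf_zero]
      · intro k hk
        simp [hk]
    simp [this]
  rw [h0] at h1
  exact h1

/-- Task AG-3. -/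
theorem sum_of (hBD : S_BD) : S_SUM := by
  intro n hn r hr0 hr t ht
  obtain ⟨m, rfl⟩ : ∃ m, n = m + 3 := ⟨n - 3, by omega⟩
  have hr' : |r| < 1 := by rwa [abs_of_nonneg hr0]
  have hq := q_pos ht hr'
  have hs : 0 < Real.sqrt (1 - 2 * r * t + r ^ 2) := Real.sqrt_pos.2 hq
  have hss : Real.sqrt (1 - 2 * r * t + r ^ 2) * Real.sqrt (1 - 2 * r * t + r ^ 2) =
      1 - 2 * r * t + r ^ 2 := Real.mul_self_sqrt hq.le
  have hS := (summS hBD m ht hr').hasSum
  have hD := (summD hBD m ht hr').hasSum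
  have hSdef : ∑' k : ℕ, cf m t k * r ^ k = SS m t r := rfl
  have hDdef : ∑' k : ℕ, ((k : ℝ) + 1) * cf m t (k + 1) * r ^ k = DD m t r := rfl
  rw [hSdef] at hS
  rw [hDdef] at hD
  have h3' : HasSum (fun k : ℕ => (k : ℝ) * cf m t k * r ^ k) (r * DD m t r) := by
    rw [← hasSum_nat_add_iff' 1]
    simp only [Finset.range_one, Finset.sum_singleton, Nat.cast_zero, zero_mul, sub_zero]
    refine (hD.mul_left r).congr_fun ?_
    intro k
    push_cast
    ring
  have hm : (0 : ℝ) < (m : ℝ) + 1 := by positivity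
  have h4 := hS.add (h3'.mul_left (2 / ((m : ℝ) + 1)))
  have hode := ode hBD m ht hr'
  have hSS := SS_eq hBD m ht hr0 hr
  have hval : SS m t r + 2 / ((m : ℝ) + 1) * (r * DD m t r) = pk (m + 3) r t := by
    unfold pk
    set s := Real.sqrt (1 - 2 * r * t + r ^ 2) with hsdef
    rw [eq_div_iff (by positivity)]
    have e1 : s ^ (m + 3) = s ^ (m + 1) * (s * s) := by ring
    rw [e1, hss]
    have e2 : (SS m t r + 2 / ((m : ℝ) + 1) * (r * DD m t r)) *
        (s ^ (m + 1) * (1 - 2 * r * t + r ^ 2)) =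
        (SS m t r * s ^ (m + 1)) * (1 - 2 * r * t + r ^ 2) +
        2 / ((m : ℝ) + 1) * r * ((1 - 2 * r * t + r ^ 2) * DD m t r) * s ^ (m + 1) := by ring
    rw [e2, hode]
    have e3 : 2 / ((m : ℝ) + 1) * r * (((m : ℝ) + 1) * (t - r) * SS m t r) * s ^ (m + 1) =
        2 * r * (t - r) * (SS m t r * s ^ (m + 1)) := by
      field_simp
    rw [e3, hSS]
    ring
  rw [hval] at h4
  refine h4.congr_fun ?_
  intro k
  unfold dk cf
  have e0 : m + 3 - 3 + k = m + k := by omega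
  rw [e0]
  push_cast
  have e1 : (m : ℝ) + 3 - 2 = m + 1 := by ring
  have e2 : 2 * (k : ℝ) + (m + 3) - 2 = 2 * k + (m + 1) := by ring
  rw [e1, e2]
  field_simp
  ring

end Pool.Agent.W376.AG
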